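import Mathlib

/-!
# A space with a `ℤ^d`-action carrying coordinate two-colourings
-/

set_option linter.style.haveILetI false

open Set Filter Topology

namespace Pool.Agent.X218.PC

/-- The group `ℤ^d`. -/
abbrev V (d : ℕ) : Type := Fin d → ℤ

/-- The index set: pairs `(i, v)` with `v i = 0` (the lines in direction `e_i`). -/
abbrev J (d : ℕ) : Type := {p : Fin d × V d // p.2 p.1 = 0}

/-- Shift of the index set. -/
def sh {d : ℕ} (γ : V d) (p : J d) : J d :=
  ⟨(p.1.1, Function.update (p.1.2 + γ) p.1.1 0), by simp⟩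

theorem sh_fst {d : ℕ} (γ : V d) (p : J d) : (sh γ p).1.1 = p.1.1 := rfl

theorem sh_zero {d : ℕ} (p : J d) : sh 0 p = p := by
  apply Subtype.ext
  apply Prod.ext
  · rfl
  · show Function.update (p.1.2 + 0) p.1.1 0 = p.1.2
    rw [add_zero]
    have h := Function.update_eq_self p.1.1 p.1.2
    rw [p.2] at h
    exact h

theorem sh_sh {d : ℕ} (γ δ : V d) (p : J d) : sh δ (sh γ p) = sh (γ + δ) p := by
  apply Subtype.ext
  apply Prod.ext
  · rfl
  · show Function.update (Function.update (p.1.2 + γ) p.1.1 0 + δ) p.1.1 0 =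
      Function.update (p.1.2 + (γ + δ)) p.1.1 0
    funext k
    by_cases hk : k = p.1.1
    · subst hk; simp
    · simp [Function.update_of_ne hk, add_assoc]

/-- The space. -/
def K (d : ℕ) : Type := J d → ZMod 2

instance (d : ℕ) : TopologicalSpace (K d) := Pi.topologicalSpace
instance (d : ℕ) : CompactSpace (K d) := inferInstanceAs (CompactSpace (J d → ZMod 2))
instance (d : ℕ) : T2Space (K d) := inferInstanceAs (T2Space (J d → ZMod 2))
instance (d : ℕ) : Countable (J d) := Subtype.countable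
instance (d : ℕ) : PolishSpace (K d) := show PolishSpace (J d → ZMod 2) from {}
instance (d : ℕ) : MeasurableSpace (K d) := borel (K d)
instance (d : ℕ) : BorelSpace (K d) := ⟨rfl⟩

/-- The action. -/
def act {d : ℕ} (γ : V d) (x : K d) : K d := fun p => x (sh γ p) + (γ p.1.1 : ZMod 2)

theorem act_zero {d : ℕ} (x : K d) : act 0 x = x := by
  funext p
  simp [act, sh_zero]

theorem act_act {d : ℕ} (γ δ : V d) (x : K d) : act γ (act δ x) = act (γ + δ) x := by
  funext p
  simp only [act, sh_sh, sh_fst, Pi.add_apply, Int.cast_add]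
  ring

theorem continuous_act {d : ℕ} (γ : V d) : Continuous (act γ : K d → K d) := by
  refine continuous_pi fun p => ?_
  exact (continuous_apply (sh γ p)).add continuous_const

/-- The action as a homeomorphism. -/
def actH {d : ℕ} (γ : V d) : K d ≃ₜ K d where
  toFun := act γ
  invFun := act (-γ)
  left_inv x := by rw [act_act]; simp [act_zero]
  right_inv x := by rw [act_act]; simp [act_zero]
  continuous_toFun := continuous_act γ
  continuous_invFun := continuous_act (-γ)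

/-- basic neighbourhoods -/
def bas {d : ℕ} (x : K d) (F : Finset (J d)) : Set (K d) := {y | ∀ p ∈ F, y p = x p}

theorem exists_bas {d : ℕ} {O : Set (K d)} (hO : IsOpen O) {x : K d} (hx : x ∈ O) :
    ∃ F : Finset (J d), bas x F ⊆ O := by
  obtain ⟨F, u, hu, hs⟩ := isOpen_pi_iff.1 hO x hx
  refine ⟨F, fun y hy => hs fun p hp => ?_⟩
  rw [hy p hp]
  exact (hu p hp).2

theorem isOpen_bas {d : ℕ} (x : K d) (F : Finset (J d)) : IsOpen (bas x F) := by
  have : bas x F = ⋂ p ∈ F, (fun y : K d => y p) ⁻¹' {x p} := by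
    ext y; simp [bas]
  rw [this]
  exact isOpen_biInter_finset fun p _ => (isOpen_discrete _).preimage (continuous_apply p)

/-- Saturation with respect to the coordinates of the `i`-th family. -/
def sat {d : ℕ} (i : Fin d) (O : Set (K d)) : Set (K d) :=
  {y | ∃ x ∈ O, ∀ p : J d, p.1.1 = i → y p = x p}

theorem subset_sat {d : ℕ} (i : Fin d) (O : Set (K d)) : O ⊆ sat i O := fun x hx => ⟨x, hx, fun _ _ => rfl⟩

theorem sat_sat {d : ℕ} (i : Fin d) (O : Set (K d)) : sat i (sat i O) = sat i O := by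
  refine subset_antisymm ?_ (subset_sat i _)
  rintro y ⟨x, ⟨z, hz, h1⟩, h2⟩
  exact ⟨z, hz, fun p hp => (h2 p hp).trans (h1 p hp)⟩

theorem isOpen_sat {d : ℕ} (i : Fin d) {O : Set (K d)} (hO : IsOpen O) : IsOpen (sat i O) := by
  classical
  rw [isOpen_iff_mem_nhds]
  rintro y ⟨x, hx, h⟩
  obtain ⟨F, hF⟩ := exists_bas hO hx
  refine mem_of_superset ((isOpen_bas y (F.filter fun p => p.1.1 = i)).mem_nhds
    (fun p _ => rfl)) ?_
  intro z hz
  refine ⟨fun p => if p.1.1 = i then z p else x p, hF fun p hp => ?_, fun p hp => by simp [hp]⟩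
  by_cases h1 : p.1.1 = i
  · simp only [h1, if_true]
    rw [hz p (Finset.mem_filter.2 ⟨hp, h1⟩)]
    exact h p h1
  · simp [h1]

theorem sat_act {d : ℕ} (i : Fin d) (γ : V d) (O : Set (K d)) :
    sat i (act γ '' O) = act γ '' (sat i O) := by
  ext y
  constructor
  · rintro ⟨_, ⟨x, hx, rfl⟩, h⟩
    refine ⟨act (-γ) y, ⟨x, hx, fun p hp => ?_⟩, by rw [act_act]; simp [act_zero]⟩
    show y (sh (-γ) p) + _ = _
    rw [h _ (by rw [sh_fst]; exact hp)]
    simp only [act, sh_sh, sh_fst, Pi.neg_apply, neg_add_cancel, sh_zero, Int.cast_neg]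
    rw [add_assoc, add_neg_cancel, add_zero]
  · rintro ⟨z, ⟨x, hx, h⟩, rfl⟩
    refine ⟨act γ x, ⟨x, hx, rfl⟩, fun p hp => ?_⟩
    show z (sh γ p) + _ = x (sh γ p) + _
    rw [h _ (by rw [sh_fst]; exact hp)]

/-- The vector `N e_k`. -/
def ve {d : ℕ} (k : Fin d) (N : ℤ) : V d := Pi.single k N

theorem sh_ve_self {d : ℕ} (N : ℤ) (p : J d) : sh (ve p.1.1 N) p = p := by
  apply Subtype.ext
  apply Prod.ext
  · rfl
  · show Function.update (p.1.2 + ve p.1.1 N) p.1.1 0 = p.1.2
    funext k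
    by_cases hk : k = p.1.1
    · subst hk
      simp [p.2]
    · simp [ve, hk]

theorem sh_ve_ne {d : ℕ} {k : Fin d} (N : ℤ) (p : J d) (h : k ≠ p.1.1) :
    (sh (ve k N) p).1.2 k = p.1.2 k + N := by
  show Function.update (p.1.2 + ve k N) p.1.1 0 k = _
  rw [Function.update_of_ne h]
  simp [ve]

/-- A bound for coordinates of a finite set of indices. -/
theorem exists_bound {d : ℕ} (F : Finset (J d)) (k : Fin d) :
    ∃ B : ℕ, ∀ p ∈ F, |p.1.2 k| ≤ B := by
  refine ⟨F.sup fun p => (p.1.2 k).natAbs, fun p hp => ?_⟩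
  have h1 := Finset.le_sup (f := fun p : J d => (p.1.2 k).natAbs) hp
  have h2 : |p.1.2 k| = ((p.1.2 k).natAbs : ℤ) := Int.abs_eq_natAbs _
  rw [h2]
  exact_mod_cast h1

/-- First mixing property. -/
theorem mix1 {d : ℕ} (i : Fin d) {O W : Set (K d)} (hO : IsOpen O) (hW : IsOpen W)
    (h : (W ∩ sat i O).Nonempty) : ∃ N : ℕ, (act (ve i (2 * N)) '' W ∩ O).Nonempty := by
  classical
  obtain ⟨w, hwW, o, ho, how⟩ := h
  obtain ⟨F', hF'⟩ := exists_bas hW hwW
  obtain ⟨F, hF⟩ := exists_bas hO ho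
  obtain ⟨B, hB⟩ := exists_bound F i
  obtain ⟨B', hB'⟩ := exists_bound F' i
  set N : ℕ := B + B' + 1 with hN
  let y : K d := fun p => if p ∈ F' then w p else if p.1.1 = i then w p else
    o (sh (ve i (-(2 * N))) p)
  refine ⟨N, act (ve i (2 * N)) y, ⟨y, hF' fun p hp => by simp [y, hp], rfl⟩, hF ?_⟩
  intro p hp
  by_cases hpi : p.1.1 = i
  · subst hpi
    show y (sh (ve p.1.1 (2 * N)) p) + ((ve p.1.1 (2 * N : ℤ)) p.1.1 : ZMod 2) = o p
    rw [sh_ve_self]
    have h1 : ((ve p.1.1 (2 * N : ℤ)) p.1.1 : ZMod 2) = 0 := by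
      simp only [ve, Pi.single_eq_same]
      push_cast
      have : (2 : ZMod 2) = 0 := rfl
      rw [this, zero_mul]
    rw [h1, add_zero, ← how p rfl]
    simp [y]
  · show y (sh (ve i (2 * N)) p) + ((ve i (2 * N : ℤ)) p.1.1 : ZMod 2) = o p
    have h1 : ((ve i (2 * N : ℤ)) p.1.1 : ZMod 2) = 0 := by
      simp [ve, hpi]
    rw [h1, add_zero]
    have h2 : sh (ve i (2 * N)) p ∉ F' := by
      intro h3
      have h4 := hB' _ h3
      rw [sh_ve_ne _ _ (Ne.symm hpi)] at h4
      have h5 := hB p hp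
      rw [abs_le] at h4 h5
      omega
    have h3 : (sh (ve i (2 * N)) p).1.1 ≠ i := hpi
    simp only [y, h2, h3, if_false]
    rw [sh_sh]
    have h4 : ve i (2 * (N : ℤ)) + ve i (-(2 * (N : ℤ))) = 0 := by
      simp [ve, ← Pi.single_add]
    rw [h4, sh_zero]

/-- Second mixing property. -/
theorem mix2 {d : ℕ} (i j : Fin d) (hij : j ≠ i) {O W : Set (K d)} (hO : IsOpen O)
    (hW : IsOpen W) (hO' : O.Nonempty) (hW' : W.Nonempty) (hWs : sat i W = W) :
    ∃ N : ℕ, (act (ve j N) '' O ∩ W).Nonempty := by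
  classical
  obtain ⟨w, hw⟩ := hW'
  obtain ⟨o, ho⟩ := hO'
  obtain ⟨F', hF'⟩ := exists_bas hW hw
  obtain ⟨F, hF⟩ := exists_bas hO ho
  obtain ⟨B, hB⟩ := exists_bound F j
  obtain ⟨B', hB'⟩ := exists_bound F' j
  set N : ℕ := B + B' + 1 with hN
  let y : K d := fun p => if p ∈ F then o p else w (sh (ve j (-N)) p)
  refine ⟨N, act (ve j N) y, ⟨y, hF fun p hp => by simp [y, hp], rfl⟩, ?_⟩
  rw [← hWs]
  refine ⟨fun p => if p.1.1 = i then act (ve j N) y p else w p, hF' fun p hp => ?_,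
    fun p hp => by simp [hp]⟩
  by_cases hpi : p.1.1 = i
  · simp only [hpi, if_true]
    show y (sh (ve j N) p) + ((ve j (N : ℤ)) p.1.1 : ZMod 2) = w p
    have h1 : ((ve j (N : ℤ)) p.1.1 : ZMod 2) = 0 := by
      rw [hpi]
      simp [ve, Ne.symm hij]
    rw [h1, add_zero]
    have h2 : sh (ve j N) p ∉ F := by
      intro h3
      have h4 := hB _ h3
      rw [sh_ve_ne _ _ (by rw [hpi]; exact hij)] at h4
      have h5 := hB' p hp
      rw [abs_le] at h4 h5
      omega
    simp only [y, h2, if_false]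
    rw [sh_sh]
    have h4 : ve j (N : ℤ) + ve j (-(N : ℤ)) = 0 := by
      simp [ve, ← Pi.single_add]
    rw [h4, sh_zero]
  · simp [hpi]

/-- Generic freeness. -/
theorem generic_free {d : ℕ} (hd : 2 ≤ d) (γ : V d) (hγ : γ ≠ 0) :
    ∀ᶠ x in residual (K d), act γ x ≠ x := by
  classical
  have hopen : IsOpen {x : K d | act γ x ≠ x} := isOpen_ne_fun (continuous_act γ) continuous_id
  refine residual_of_dense_open hopen ?_
  rw [dense_iff_inter_open]
  rintro O hO ⟨x, hx⟩
  obtain ⟨F, hF⟩ := exists_bas hO hx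
  obtain ⟨k, hk⟩ := Function.ne_iff.1 hγ
  have hk' : γ k ≠ 0 := hk
  obtain ⟨i, hi⟩ : ∃ i : Fin d, i ≠ k := by
    haveI : Nontrivial (Fin d) := Fin.nontrivial_iff_two_le.2 hd
    exact exists_ne k
  obtain ⟨B, hB⟩ := exists_bound F k
  set L : ℤ := B + |γ k| + 1 with hL
  let p : J d := ⟨(i, ve k L), by simp [ve, hi]⟩
  have hpk : p.1.2 k = L := by simp [p, ve]
  have hqk : (sh γ p).1.2 k = L + γ k := by
    show Function.update (p.1.2 + γ) p.1.1 0 k = _
    rw [Function.update_of_ne (show k ≠ p.1.1 from Ne.symm hi), Pi.add_apply, hpk]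
  have hpq : sh γ p ≠ p := by
    intro h
    rw [h, hpk] at hqk
    omega
  have hpF : p ∉ F := by
    intro h
    have := hB p h
    rw [hpk, abs_le] at this
    have := abs_nonneg (γ k)
    omega
  have hqF : sh γ p ∉ F := by
    intro h
    have h1 := hB _ h
    rw [hqk, abs_le] at h1
    have := neg_abs_le (γ k)
    omega
  let y : K d := fun q => if q = p then x (sh γ p) + (γ p.1.1 : ZMod 2) + 1 else
    x q
  refine ⟨y, hF fun q hq => ?_, fun h => ?_⟩
  · have : q ≠ p := fun h => hpF (h ▸ hq)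
    simp [y, this]
  · have h1 := congrFun h p
    have h2 : y (sh γ p) + (γ p.1.1 : ZMod 2) = y p := h1
    simp only [y, hpq, if_false, if_true] at h2
    have h3 : ∀ a : ZMod 2, a ≠ a + 1 := by decide
    exact h3 _ h2

end Pool.Agent.X218.PC
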