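import Mathlib
import Pool.Agent.X218.PC.Space

/-!
# There are no Borel phases of cube tilings on the generic part of the space
-/

set_option linter.style.haveILetI false

open Set Filter Topology

namespace Pool.Agent.X218.PC

variable {d : ℕ}

/-- the value of `e i` is generically equal to `b` on `O` -/
def R (e : Fin d → K d → Bool) (i : Fin d) (b : Bool) (O : Set (K d)) : Prop :=
  ∀ᶠ x in residual (K d), x ∈ O → e i x = b

theorem R.shift {e : Fin d → K d → Bool} {i : Fin d} {b c : Bool} {O : Set (K d)} {γ : V d}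
    (h : ∀ᶠ x in residual (K d), x ∈ O → e i (act γ x) = c) : R e i c (act γ '' O) := by
  have h1 : ∀ᶠ y in residual (K d), act (-γ) y ∈ O → e i (act γ (act (-γ) y)) = c :=
    (tendsto_residual_of_isOpenMap (actH (-γ)).continuous (actH (-γ)).isOpenMap).eventually h
  filter_upwards [h1] with y hy
  rintro ⟨x, hx, rfl⟩
  have h2 : act (-γ) (act γ x) = x := by rw [act_act]; simp [act_zero]
  rw [h2] at hy
  exact hy hx

theorem isOpen_act_image {O : Set (K d)} (hO : IsOpen O) (γ : V d) : IsOpen (act γ '' O) :=
  (actH γ).isOpenMap O hO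

theorem R.unique {e : Fin d → K d → Bool} {i : Fin d} {b b' : Bool} {O O' : Set (K d)}
    (h : R e i b O) (h' : R e i b' O') (hO : IsOpen O) (hO' : IsOpen O')
    (hne : (O ∩ O').Nonempty) : b = b' := by
  obtain ⟨x, hx1, hx2, hx3⟩ :=
    (dense_of_mem_residual (h.and h')).inter_open_nonempty _ (hO.inter hO') hne
  rw [← hx2 hx1.1, hx3 hx1.2]

/-- The phases of a Borel tiling do not exist. -/
theorem no_phases (hd : 2 ≤ d) (e : Fin d → K d → Bool) (he : ∀ i, Measurable (e i))
    (ha : ∀ᶠ x in residual (K d), ∀ i, e i (act (ve i 1) x) = !(e i x))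
    (hb : ∀ᶠ x in residual (K d), ∀ i j, i ≠ j → e j x = true →
      e i (act (ve j 1) x) = e i x) : False := by
  classical
  have hu : ∀ (i : Fin d) (b : Bool), ∃ u : Set (K d), IsOpen u ∧
      ∀ᶠ x in residual (K d), (e i x = b ↔ x ∈ u) := by
    intro i b
    have hm : MeasurableSet {x : K d | e i x = b} := he i (measurableSet_singleton b)
    obtain ⟨u, hu1, hu2⟩ := MeasurableSet.residualEq_isOpen hm
    refine ⟨u, hu1, ?_⟩
    filter_upwards [hu2] with x hx
    exact iff_of_eq hx
  -- generic points: the identities hold along the whole orbit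
  have horb : ∀ {P : K d → Prop}, (∀ᶠ x in residual (K d), P x) →
      ∀ᶠ x in residual (K d), ∀ γ : V d, P (act γ x) := by
    intro P hP
    rw [eventually_countable_forall]
    intro γ
    exact (tendsto_residual_of_isOpenMap (actH γ).continuous (actH γ).isOpenMap).eventually hP
  have ha' := horb ha
  have hper : ∀ᶠ x in residual (K d), ∀ (i : Fin d) (N : ℕ), e i (act (ve i (2 * N)) x) = e i x := by
    filter_upwards [ha'] with x hx i N
    induction N with
    | zero =>
      have : ve i (2 * ((0 : ℕ) : ℤ)) = (0 : V d) := by simp [ve]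
      rw [this, act_zero]
    | succ N ih =>
      have h1 : act (ve i (2 * ((N + 1 : ℕ) : ℤ))) x =
          act (ve i 1) (act (ve i 1) (act (ve i (2 * N)) x)) := by
        rw [act_act, act_act]
        congr 1
        simp only [ve, ← Pi.single_add]
        congr 1
        push_cast
        ring
      have h2 : act (ve i 1) (act (ve i (2 * N)) x) = act (ve i 1 + ve i (2 * N)) x := act_act _ _ _
      have h3 := hx (ve i 1 + ve i (2 * N)) i
      have h4 := hx (ve i (2 * N)) i
      rw [h1]
      rw [← h2] at h3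
      rw [h3, h4, Bool.not_not, ih]
  -- existence
  have L0 : ∀ i, ∃ (b : Bool) (W : Set (K d)), IsOpen W ∧ W.Nonempty ∧ R e i b W := by
    intro i
    by_contra hcon
    push Not at hcon
    obtain ⟨u, hu1, hu2⟩ := hu i true
    obtain ⟨v, hv1, hv2⟩ := hu i false
    have hu0 : u = ∅ := by
      by_contra h
      exact hcon true u hu1 (nonempty_iff_ne_empty.2 h) (by
        filter_upwards [hu2] with x hx hxu
        exact hx.2 hxu)
    have hv0 : v = ∅ := by
      by_contra h
      exact hcon false v hv1 (nonempty_iff_ne_empty.2 h) (by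
        filter_upwards [hv2] with x hx hxu
        exact hx.2 hxu)
    have hne : (univ : Set (K d)).Nonempty := ⟨fun _ => 0, mem_univ _⟩
    obtain ⟨x, -, hx1, hx2⟩ :=
      (dense_of_mem_residual (hu2.and hv2)).inter_open_nonempty _ isOpen_univ hne
    cases hx : e i x
    · have := hx2.1 hx
      rw [hv0] at this
      exact this
    · have := hx1.1 hx
      rw [hu0] at this
      exact this
  -- saturation
  have Lsat : ∀ i b (O : Set (K d)), IsOpen O → R e i b O → R e i b (sat i O) := by
    intro i b O hO hR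
    obtain ⟨u, hu1, hu2⟩ := hu i (!b)
    rcases eq_empty_or_nonempty (u ∩ sat i O) with h | h
    · filter_upwards [hu2] with x hx hxs
      have hxu : x ∉ u := fun hxu => by
        have : x ∈ u ∩ sat i O := ⟨hxu, hxs⟩
        rw [h] at this
        exact this
      have h2 : e i x ≠ !b := fun h3 => hxu (hx.1 h3)
      cases b <;> cases h4 : e i x <;> simp_all
    · exfalso
      have hW : IsOpen (u ∩ sat i O) := hu1.inter (isOpen_sat i hO)
      obtain ⟨N, hN⟩ := mix1 i hO hW (by
        rwa [inter_assoc, inter_self])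
      have h1 : R e i (!b) (act (ve i (2 * N)) '' (u ∩ sat i O)) := by
        refine R.shift (b := b) ?_
        filter_upwards [hper, hu2] with x hx hx2 hxW
        rw [hx i N]
        exact hx2.2 hxW.1
      have h2 := R.unique h1 hR (isOpen_act_image hW _) hO hN
      cases b <;> simp at h2
  -- flipping
  have Lflip : ∀ i b (O : Set (K d)), R e i b O → R e i (!b) (act (ve i 1) '' O) := by
    intro i b O hR
    refine R.shift (b := b) ?_
    filter_upwards [ha, hR] with x hx hx2 hxO
    rw [hx i, hx2 hxO]
  -- sets where `e j` is true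
  have Ltrue : ∀ j, ∃ S : Set (K d), IsOpen S ∧ S.Nonempty ∧ R e j true S ∧ sat j S = S := by
    intro j
    obtain ⟨b, W, hW1, hW2, hW3⟩ := L0 j
    have : ∃ W' : Set (K d), IsOpen W' ∧ W'.Nonempty ∧ R e j true W' := by
      cases b
      · exact ⟨_, isOpen_act_image hW1 (ve j 1), hW2.image _, Lflip j false W hW3⟩
      · exact ⟨W, hW1, hW2, hW3⟩
    obtain ⟨W', h1, h2, h3⟩ := this
    exact ⟨sat j W', isOpen_sat j h1, h2.mono (subset_sat j W'), Lsat j true W' h1 h3, sat_sat j W'⟩
  -- one step in an orthogonal direction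
  have Lstep : ∀ i j, i ≠ j → ∀ b (O : Set (K d)), IsOpen O → sat i O = O → R e i b O →
      R e i b (act (ve j 1) '' O) := by
    intro i j hij b O hO hsO hR
    obtain ⟨S, hS1, ⟨s, hs⟩, hS3, hS4⟩ := Ltrue j
    have hjoin : ∀ o ∈ O, ∃ y ∈ O ∩ S, ∀ p : J d, p.1.1 = i → o p = y p := by
      intro o ho
      refine ⟨fun p => if p.1.1 = j then s p else o p, ⟨?_, ?_⟩, fun p hp => ?_⟩
      · rw [← hsO]
        exact ⟨o, ho, fun p hp => by simp [hp, hij]⟩
      · rw [← hS4]
        exact ⟨s, hs, fun p hp => by simp [hp]⟩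
      · simp [hp, hij]
    have h1 : R e i b (act (ve j 1) '' (O ∩ S)) := by
      refine R.shift (b := b) ?_
      filter_upwards [hb, hR, hS3] with x hx1 hx2 hx3 hx
      rw [hx1 i j hij (hx3 hx.2), hx2 hx.1]
    have h2 := Lsat i b _ (isOpen_act_image (hO.inter hS1) _) h1
    rw [sat_act] at h2
    filter_upwards [h2] with x hx hxO
    apply hx
    obtain ⟨o, ho, rfl⟩ := hxO
    exact ⟨o, hjoin o ho, rfl⟩
  have Lstep' : ∀ i j, i ≠ j → ∀ b (O : Set (K d)), IsOpen O → sat i O = O → R e i b O →
      ∀ N : ℕ, R e i b (act (ve j N) '' O) := by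
    intro i j hij b O hO hsO hR N
    induction N with
    | zero =>
      have : ve j ((0 : ℕ) : ℤ) = (0 : V d) := by simp [ve]
      rw [this]
      have h0 : act (0 : V d) '' O = O := by
        ext x; simp [act_zero]
      rw [h0]
      exact hR
    | succ N ih =>
      have h1 : act (ve j ((N + 1 : ℕ) : ℤ)) '' O = act (ve j 1) '' (act (ve j N) '' O) := by
        rw [image_image]
        congr 1
        funext x
        rw [act_act]
        congr 1
        simp only [ve, ← Pi.single_add]
        congr 1
        push_cast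
        ring
      rw [h1]
      refine Lstep i j hij b _ (isOpen_act_image hO _) ?_ ih
      rw [sat_act, hsO]
  -- conclusion
  haveI : Nontrivial (Fin d) := Fin.nontrivial_iff_two_le.2 hd
  obtain ⟨i, j, hij⟩ := exists_pair_ne (Fin d)
  obtain ⟨O, hO1, hO2, hO3, hO4⟩ := Ltrue i
  have hO' : IsOpen (act (ve i 1) '' O) := isOpen_act_image hO1 _
  obtain ⟨N, hN⟩ := mix2 i j (Ne.symm hij) hO1 hO' hO2 (hO2.image _) (by rw [sat_act, hO4])
  have h1 := Lstep' i j hij true O hO1 hO4 hO3 N
  have h2 := Lflip i true O hO3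
  have h3 := R.unique h1 h2 (isOpen_act_image hO1 _) hO' hN
  simp at h3

end Pool.Agent.X218.PC
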